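import Mathlib
import Pool.Agent.N38.AD.Lift

/-!
# The approximation degree of every abstract smoothing is zero

Let `k` be an algebraically closed field and `A` a finite `k`-algebra. For a basis `e` of a finite flat
`k⟦X⟧`-algebra let `ad e` be the greatest valuation of a nonzero structure constant, and let the
approximation degree be the minimum of `ad e` over all bases.

The theorem: every abstract smoothing of `A` (completely split or not) has a basis all of whose structure
constants are invertible in `k⟦X⟧`, so that its approximation degree is zero.

Proof. In a generic basis of `A` no structure constant is zero: for given indices `i`, `j`, `l` the product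
of the structure constant with the determinant of the matrix of the basis is a polynomial, the determinant
of the basis in which the `l`-th vector is replaced by the product of the `i`-th and the `j`-th one, and
this is not the zero polynomial. Any lift of such a basis to the smoothing has the required property.
-/

set_option autoImplicit false

namespace Pool.Agent.Results.MP_a8f336_ag.ApproximationDegree

open Module PowerSeries TensorProduct

/-- An abstract smoothing of the `k`-algebra `A`: a finite flat `k⟦X⟧`-algebra with geometrically reduced
generic fibre and with special fibre `A` (the map `special` induces an isomorphism of `k`-algebras of the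
quotient by the ideal generated by `X` with `A`). -/
structure AbstractSmoothing (k : Type) [Field k] (A : Type) [CommRing A] [Algebra k A] where
  /-- the algebra -/
  carrier : Type
  [commRing : CommRing carrier]
  [algebra : Algebra k⟦X⟧ carrier]
  finite : Module.Finite k⟦X⟧ carrier
  flat : Module.Flat k⟦X⟧ carrier
  geomReduced : ∀ (L : Type) [Field L] [Algebra (LaurentSeries k) L],
    IsReduced (L ⊗[LaurentSeries k] (LaurentSeries k ⊗[k⟦X⟧] carrier))
  /-- the map to the special fibre -/
  special : carrier →+* A
  special_surjective : Function.Surjective special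
  special_ker : RingHom.ker special = Ideal.span {algebraMap k⟦X⟧ carrier X}
  special_C : ∀ c : k, special (algebraMap k⟦X⟧ carrier (C c)) = algebraMap k A c

attribute [instance] AbstractSmoothing.commRing AbstractSmoothing.algebra

variable {k : Type} [Field k]

/-- The generic fibre is a product of copies of `k((X))`. -/
def CompletelySplit {A : Type} [CommRing A] [Algebra k A] (S : AbstractSmoothing k A) : Prop :=
  ∃ d : ℕ, Nonempty
    ((LaurentSeries k ⊗[k⟦X⟧] S.carrier) ≃ₐ[LaurentSeries k] (Fin d → LaurentSeries k))

/-- The greatest valuation of a nonzero structure constant of the basis `e`. -/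
noncomputable def ad {B : Type} [CommRing B] [Algebra k⟦X⟧ B] {d : ℕ} (e : Basis (Fin d) k⟦X⟧ B) : ℕ :=
  open Classical in
  Finset.univ.sup fun x : Fin d × Fin d × Fin d =>
    if e.repr (e x.1 * e x.2.1) x.2.2 = 0 then 0
    else (e.repr (e x.1 * e x.2.1) x.2.2).order.toNat

/-- The approximation degree: the minimum of `ad e` over all bases `e`. -/
noncomputable def approximationDegree {A : Type} [CommRing A] [Algebra k A]
    (S : AbstractSmoothing k A) : ℕ :=
  sInf {N | ∃ (d : ℕ) (e : Basis (Fin d) k⟦X⟧ S.carrier), ad e = N}

/-- There is a basis all of whose structure constants are invertible. -/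
theorem exists_unit [Infinite k] {A : Type} [CommRing A] [Algebra k A]
    (S : AbstractSmoothing k A) :
    ∃ (d : ℕ) (e : Basis (Fin d) k⟦X⟧ S.carrier), ∀ i j l, IsUnit (e.repr (e i * e j) l) := by
  have := S.finite
  have := S.flat
  have : Module.Free k⟦X⟧ S.carrier := Module.free_of_flat_of_isLocalRing
  have E : Basis (Fin (finrank k⟦X⟧ S.carrier)) k⟦X⟧ S.carrier := Module.finBasis _ _
  have h : Pool.Agent.N38.AD.IsSpecialFibre (k := k) S.special :=
    { surj := S.special_surjective
      ker := by
        intro a ha
        have h1 : a ∈ RingHom.ker S.special := ha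
        rw [S.special_ker, Ideal.mem_span_singleton'] at h1
        obtain ⟨b, hb⟩ := h1
        exact ⟨b, by rw [Algebra.smul_def, ← hb, mul_comm]⟩
      map_X := by
        have h1 : algebraMap k⟦X⟧ S.carrier X ∈ RingHom.ker S.special := by
          rw [S.special_ker]
          exact Ideal.mem_span_singleton_self _
        exact h1
      map_C := S.special_C }
  obtain ⟨e, he⟩ := Pool.Agent.N38.AD.exists_unit_basis h E
  exact ⟨_, e, fun i j l => isUnit_iff_constantCoeff.2 (Ne.isUnit (he i j l))⟩

theorem degree_zero [Infinite k] {A : Type} [CommRing A] [Algebra k A]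
    (S : AbstractSmoothing k A) : approximationDegree S = 0 := by
  classical
  obtain ⟨d, e, he⟩ := exists_unit S
  apply Nat.sInf_eq_zero.2
  left
  refine ⟨d, e, ?_⟩
  unfold ad
  rw [← Nat.bot_eq_zero, Finset.sup_eq_bot_iff]
  intro x _
  have h1 := isUnit_iff_constantCoeff.1 (he x.1 x.2.1 x.2.2)
  have h2 : (e.repr (e x.1 * e x.2.1) x.2.2).order ≤ ((0 : ℕ) : ℕ∞) :=
    order_le 0 (by rw [coeff_zero_eq_constantCoeff_apply]; exact h1.ne_zero)
  have h3 : (e.repr (e x.1 * e x.2.1) x.2.2).order = 0 := by
    simpa using h2
  split_ifs
  · rfl
  · rw [h3]
    rfl

/-- **The approximation degree of every abstract smoothing is zero**, with the answers to Q1 and Q2. -/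
theorem result (k : Type) [Field k] [IsAlgClosed k] :
    -- every abstract smoothing has a basis with invertible structure constants, and its approximation
    -- degree is zero
    (∀ (A : Type) [CommRing A] [Algebra k A] [Module.Finite k A] (S : AbstractSmoothing k A),
      (∃ (d : ℕ) (e : Basis (Fin d) k⟦X⟧ S.carrier), ∀ i j l, IsUnit (e.repr (e i * e j) l)) ∧
        approximationDegree S = 0) ∧
    -- Q1
    (∀ (A : Type) [CommRing A] [Algebra k A] [Module.Finite k A],
      (∃ S : AbstractSmoothing k A, CompletelySplit S) →
        ∃ S : AbstractSmoothing k A, CompletelySplit S ∧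
          approximationDegree S ≤ Module.finrank k A) ∧
    -- Q2
    (∃ P : Polynomial ℕ, ∀ (A : Type) [CommRing A] [Algebra k A] [Module.Finite k A],
      (∃ S : AbstractSmoothing k A, CompletelySplit S) →
        ∃ S : AbstractSmoothing k A, CompletelySplit S ∧
          approximationDegree S ≤ P.eval (Module.finrank k A)) := by
  have : Infinite k := IsAlgClosed.instInfinite
  refine ⟨?_, ?_, 0, ?_⟩
  · intro A _ _ _ S
    exact ⟨exists_unit S, degree_zero S⟩
  · intro A _ _ _ ⟨S, hS⟩
    exact ⟨S, hS, by rw [degree_zero S]; exact Nat.zero_le _⟩
  · intro A _ _ _ ⟨S, hS⟩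
    exact ⟨S, hS, by rw [degree_zero S]; exact Nat.zero_le _⟩

end Pool.Agent.Results.MP_a8f336_ag.ApproximationDegree
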